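import Mathlib
import Pool.Agent.N178.HX.Parts
import Pool.Agent.N178.MU.Indep
import Pool.Agent.V5helper93.Murre.CK

/-!
# The conjectures of Murre for motives of abelian type of Hodge level at most three

Let `X` be a complex abelian variety (`AV`, up to isogeny) in one of the following two classes.

(a) All simple factors of `X` are factors of an abelian variety `A` of dimension at most three (for
instance `X` is a power of `A`).

(b) There are finitely many CM types `T k`, divided into independent blocks, such that for each block
all CM types of the CM fields in this block are conjugate, or the total dimension of the block is at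
most three, or the block consists of all CM types of a Galois CM field of degree at most six; and
each simple factor of `X` is a factor of one of the abelian varieties with the CM types `T k`, or has
no complex multiplication and belongs to one of the classes in `Typ` below (of any dimension), where
an imaginary quadratic field which acts with two different multiplicities on the tangent space must
be the field of an elliptic curve of the first kind (fourfolds with such an action are excluded).

Let `M = (X, p)` be a direct summand of the Chow motive of `X` of Hodge level at most three: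
`h^(s, t)(M) = 0` if `|s - t| ≥ 4`. For example `M = h(V)`, where `V` is a threefold which is the
image of `X`, or the image of a product of curves of positive genus such that the product of their
Jacobians is `X`; or `M` is the part of level at most three of the motive of such a variety of any
dimension. The theorem:

(A) `M` has a Chow–Künneth decomposition `M = ⊕ M_m` (`M_m = (X, P m)` has the homology of `M` in
degree `m`).

For **every** Chow–Künneth decomposition of `M`:

(B) `CH_i(M_m) = 0` for `m < 2 i`;

(D) `CH_i(M_(2 i))_hom = 0`;

(C) the filtration `F^ν CH_i(M) = ⊕_(m ≥ 2 i + ν) CH_i(M_m)` is the same for all Chow–Künneth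
decompositions, if `max (s', t') ≤ min (s, t) + 1` for all nonzero Hodge numbers `h^(s, t)` and
`h^(s', t')` of `M` with `s' + t' < s + t`. This condition is satisfied if the Hodge level of `M` is
at most two (for instance `M = h(V)` for surfaces `V` as above, and for threefolds with
`h^(3, 0) = 0`), and also for `M = h(V)` for threefolds `V` with `h^(1, 0) = h^(2, 0) = 0` (for
instance Calabi–Yau threefolds).

So all of the conjectures of Murre are true for these motives; no decomposition is special.

The structures `ChowTheory` (`Pool.Agent.N178.BL.Defs`) and `Projectors` (`Pool.Agent.N178.MU.Defs`)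
collect the known properties of the Chow groups of complex abelian varieties which are used: the
formal properties of correspondences; Kimura's theorem that homologically trivial endomorphisms of
the motive are nilpotent; the semisimplicity of the category of motives of abelian varieties modulo
homological equivalence (Jannsen, Lieberman); the algebraic classes are a system `Sys` (Lefschetz,
Markman); the algebraicity of the isomorphisms `H^n(Y, ℚ) ≅ H_n(Y, ℚ)` given by a polarization
(Lieberman); the projectors of Deninger and Murre, and the vanishing of the cycles of codimension at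
most one on `h^n(Y)` for large `n` (Beauville, Künnemann).

The proof: (A) the Künneth projectors are lifted to orthogonal idempotents with sum `p`
(`Pool.Agent.V5helper93.Murre.CK`). By the generalized Hodge conjecture for `X` and nilpotence, `M_m`
is a direct summand of a sum of motives `h_(m - 2 c)(Y)(c)`, where `c` is the Hodge coniveau of
`H_m(M)`, for each Chow–Künneth decomposition. For (B) and (D) only cycles of codimension at most one
on the motives of varieties of dimension `m - 2 c` matter; (C) follows from the vanishing of the
morphisms `M_a → M'_b` for `b < a`, which are cycles of codimension at most one as well.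
-/

namespace Pool.Agent.Results.MP_38de51_ag.HodgeLevelThree

open Module NumberField Pool.Agent.Y90 Pool.Agent.R915
open Pool.Agent.H204R3.CM (IsCMType)
open Pool.Agent.W547.KB (CMPair CMAV single)
open Pool.Agent.W547.LN (SameType)
open Pool.Agent.N830.HC (av)
open Pool.Agent.N178.BL (ChowTheory)
open Pool.Agent.N178.MU (Projectors IsChowKunneth HodgeZero F)

/-- The classes of simple abelian varieties: dimension at most three; or the endomorphism algebra is
an imaginary quadratic field of signature `(p, q)` with `p, q ≤ 3` (and trivial discriminant for
`(3, 3)`); or Albert type I or II of relative dimension at most three; or dimension five and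
endomorphism algebra `ℚ`; or Albert type I or II, any dimension, with the largest possible Hodge
group. -/
def Typ (Y : AV) : Prop :=
  finrank ℚ Y.H ≤ 6 ∨ QuadMult Y ∨ RealMult Y ∨ FiveDim Y ∨ FullHodge Y

/-- Each simple factor `Y` of `X` is a factor of an abelian variety with one of the CM types `T k`; or
it has no complex multiplication, belongs to one of the classes in `Typ`, and if `ℚ(√-d)` acts on `Y`
with two different multiplicities then `Y` is not a fourfold and the elliptic curve `E` with complex
multiplication by this field is a factor of an abelian variety with one of the CM types `T k`. -/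
def HasFactorsIn {K : Type} (T : K → CMPair) (X : AV) : Prop :=
  ∀ Y, IsFactor Y X → (∃ k, IsFactor Y (av (single (T k)))) ∨ (¬ HasCMult Y ∧ Typ Y ∧
    ∀ d : ℚ, Unbalanced Y d → finrank ℚ Y.H ≠ 8 ∧
      ∃ k E, IsFactor E (av (single (T k))) ∧ finrank ℚ E.H = 2 ∧ Unbalanced E d)

/-- All CM types of the CM fields in the block `B` are conjugate, simultaneously: for each family of
CM types `Ψ k` of the CM fields there is an automorphism of `ℂ` which takes `Ψ k` to the CM type
`T k`, for all `k` in `B`. -/
def AllConjugate {K : Type} (T : K → CMPair) (B : Set K) : Prop :=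
  ∀ Ψ : ∀ k, Set ((T k).E →+* ℂ), (∀ k, IsCMType (Ψ k)) →
    ∃ σ : ℂ ≃+* ℂ, ∀ k ∈ B, ∀ φ, φ ∈ Ψ k ↔ (σ : ℂ →+* ℂ).comp φ ∈ (T k).Φ

/-- The CM fields of the block `B` are subfields of the Galois CM field `L`, and all CM types of `L`
occur. -/
def AllTypes {K : Type} (T : K → CMPair) (B : Set K) (L : Type) [Field L] [NumberField L]
    [IsCMField L] : Prop :=
  IsGalois ℚ L ∧ (∀ k ∈ B, Nonempty ((T k).E →+* L)) ∧
    ∀ (Φ : Set (L →+* ℂ)) (hΦ : IsCMType Φ), ∃ k ∈ B, SameType ⟨L, Φ, hΦ⟩ (T k)

/-- The total dimension of the block is at most three. -/
def DimAtMostThree {K : Type} (T : K → CMPair) (B : Set K) : Prop :=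
  ∃ F : Finset K, (∀ k, k ∈ F ↔ k ∈ B) ∧ ∑ k ∈ F, finrank ℚ (T k).E ≤ 6

/-- The blocks `{k | b k = j}` are independent: automorphisms of `ℂ` can be prescribed separately on
the complex embeddings of the CM fields of the different blocks. (The composita of the Galois
closures of the fields of the different blocks are linearly disjoint over `ℚ`.) -/
def IsIndependent {K J : Type} (T : K → CMPair) (b : K → J) : Prop :=
  ∀ τ : J → (ℂ ≃+* ℂ), ∃ σ : ℂ ≃+* ℂ, ∀ k (φ : (T k).E →+* ℂ),
    (σ : ℂ →+* ℂ).comp φ = (τ (b k) : ℂ →+* ℂ).comp φ

/-- The condition on the block `B`. -/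
def IsGoodBlock {K : Type} (T : K → CMPair) (B : Set K) : Prop :=
  AllConjugate T B ∨ (∃ (L : Type) (_ : Field L) (_ : NumberField L) (_ : IsCMField L),
    AllTypes T B L ∧ finrank ℚ L ≤ 6) ∨ DimAtMostThree T B

/-- The classes (a) and (b) of abelian varieties. -/
def IsGood (X : AV) : Prop :=
  (∃ A : AV, finrank ℚ A.H ≤ 6 ∧ ∀ Y, IsFactor Y X → IsFactor Y A) ∨
    ∃ (K J : Type) (_ : Fintype K) (T : K → CMPair) (b : K → J), IsIndependent T b ∧
      (∀ j, IsGoodBlock T {k | b k = j}) ∧ HasFactorsIn T X

theorem ghc {C : ChowTheory} {X : AV} (hX : IsGood X) : Pool.Agent.N178.HX.GHC C.alg X := by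
  rcases hX with ⟨A, hA, hX⟩ | ⟨K, J, _, T, b, hb, hj, hX⟩
  · exact Pool.Agent.N178.HX.pow3 Pool.Agent.N178.HX.t_MAINT Pool.Agent.N178.HX.t_COV
      Pool.Agent.N178.HX.t_POW A X hA hX C.alg
  · exact Pool.Agent.N178.HX.uncond' Pool.Agent.N178.HX.t_MAINT Pool.Agent.N178.HX.t_COV T b hb
      hj C.alg X hX

/-- **The conjectures (A), (B), (C), (D) of Murre** for the direct summands `M = (X, p)` of Hodge level
at most three of the Chow motives of the abelian varieties `X` in the classes (a), (b). The cycles on
`X` are the correspondences from the point `O` to `X`. -/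
theorem result (C : ChowTheory) (K : Projectors C) (O : AV) (hO : finrank ℚ O.H = 0) (X : AV)
    (hX : IsGood X) (p : C.Co X X) (hp : C.IsMotive p)
    (hL : ∀ s t : ℕ, 4 ≤ |(s : ℤ) - t| → HodgeZero p s t) :
    (∃ P, IsChowKunneth p P) ∧ ∀ P, IsChowKunneth p P →
      (∀ (i : ℤ) (m : ℕ) (z : C.Co O X), C.IsDeg i z → m < 2 * i → C.o (P m) z = 0) ∧
      (∀ (i m : ℕ) (z : C.Co O X), C.IsDeg i z → m = 2 * i →
        (∀ ω, C.pb (C.o (P m) z) ω = 0) → C.o (P m) z = 0) ∧
      ((∀ s t s' t' : ℕ, s' + t' < s + t → min s t + 1 < max s' t' →
        HodgeZero p s t ∨ HodgeZero p s' t') →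
        ∀ P', IsChowKunneth p P' → ∀ (i : ℤ) (ν : ℕ) (z : C.Co O X),
          F p P i ν z ↔ F p P' i ν z) := by
  refine ⟨Pool.Agent.V5helper93.Murre.exists_chowKunneth K hp, fun P hP =>
    ⟨fun i m z hz hm => ?_, fun i m z hz hm h0 => ?_, fun hA P' hP' i ν z =>
      Pool.Agent.N178.MU.indep K (ghc hX) hp hP hP' hA⟩⟩
  · exact Pool.Agent.N178.MU.vanish K (ghc hX) hO hP hm.le
      (fun s t hst h1 => hL s t (by rw [le_abs]; omega)) hz (fun h1 => by omega)
  · have hPm := hP.1 m
    have h1 : C.IsDeg i (C.o (P m) z) := by
      have h2 := C.deg_o z (P m) hz hPm.1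
      rwa [add_zero] at h2
    have h2 : C.o (P m) (C.o (P m) z) = 0 :=
      Pool.Agent.N178.MU.vanish K (ghc hX) hO hP (by omega)
        (fun s t hst h3 => hL s t (by rw [le_abs]; omega)) h1 (fun _ => h0)
    rwa [C.assoc, hPm.2] at h2

end Pool.Agent.Results.MP_38de51_ag.HodgeLevelThree
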