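import Pool.Agent.V5helper92.HC.Murre2

/-!
# Murre's conjectures for the tensor products of the primitive motives of hypersurfaces

Let `F_1, ..., F_r` be smooth forms of degree `d` over the complex numbers, in disjoint sets of variables,
and let `X_k : F_k(x_k) = 0` be the hypersurfaces, of arbitrary dimensions `n_k ≥ 1`, with the hyperplane
classes `h_k`. The Chow-Künneth decomposition of `X_k` consists of the Lefschetz motives given by the
powers of `h_k` and of the primitive motive `h_prim(X_k)`, of weight `n_k`. So the product
`W = X_1 × ... × X_r` has a Chow-Künneth decomposition into twists of the pure motives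
`M_S = ⊗_(k ∈ S) h_prim(X_k)`, for subsets `S` of `{1, ..., r}`. The conjectures (B) and (D) of Murre for this
decomposition say the following about the motives `M = M_S`, for `S = {1, ..., r}` say, of weight
`n = ∑ n_k = dim W`: (B) `CH^i(M) = 0` for `2 i < n`; (D) `CH^i(M)_hom = 0` for `2 i = n`. Here `CH^i(M)` is
the group of the totally primitive classes `z` in `CH^i(W)`: the push-forward of `z · h_k ^ l` to the
product of the factors different from `X_k` is zero, for all `k` and `l`.

For one hypersurface `X` of dimension `n` the statement (B) is Hartshorne's conjecture `CH^i(X) = ℚ h^i` for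
`2 i < n`, and (D) says `CH^(n/2)(X)_hom = 0` (`n` even).

**Theorem.** (1) Let `J` be the hypersurface `F_1(x_1) + ... + F_r(x_r) = 0`. If (B) is true for `J`, then
it is true for the motive `h_prim(X_1) ⊗ ... ⊗ h_prim(X_r)`. The same holds for (D). (2) For each `d`,
(B) and (D) are true for all smooth hypersurfaces of degree `d` if and only if they are true for all
tensor products `h_prim(X_1) ⊗ ... ⊗ h_prim(X_r)`.

So Murre's conjectures (B) and (D) for the products of hypersurfaces of degree `d` are reduced to the
hypersurfaces of degree `d`. (It is not known in general that these conjectures are stable under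
products.) Homological equivalence can be replaced by any adequate equivalence relation which is finer
than numerical equivalence.

Proof. Let `X : F = 0`, `Y : G = 0` and `J : F(x) + G(y) = 0`, and let `Z` be any variety. The join
`F(x) = 0 = G(y)` is a divisor in `J`; let `Γ : CH^i(X × Y × Z) → CH^(i+1)(J × Z)` be the map which maps a
cycle to its join, and `Γ^*` its transpose. The self-intersection formula on `J' × Z`, where `J'` is the
blow-up of `J` in `X ⊔ Y`, gives `Γ^* Γ w = - d w` if `w` is primitive for `X` and `Y`. If `Z` is a product
of hypersurfaces and `w` is totally primitive, then `Γ w` is totally primitive, by base change and since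
the transposed joins of the powers of `h_J` are combinations of the classes `h_X^a h_Y^b`. So the
vanishing of `Γ w` implies `w = 0`, and the theorem follows by induction on `r`.

The Chow groups enter through their standard properties, `Chow`, `ProductGeometry`
(`Pool/Agent/V5helper92/HC/`): data of Chow rings with pull-backs, push-forwards and the projection
formula, for the category of smooth projective irreducible varieties; dimension (`HasDim`); base change
for products (`Chow.Products`); the hyperplane classes of the hypersurfaces, with their degrees; and for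
the joins (`Join`, `Join.Times`) the projective line bundle `D` over `X × Y`, the blow-up `J'` and its
exceptional divisors, transversal intersections, the self-intersection formula, also after a product
with a variety `Z`.
-/

set_option autoImplicit false

open CategoryTheory MonoidalCategory CartesianMonoidalCategory Pool.Agent.V5helper92.HC

namespace Pool.Agent.Results.MP_38de51_ag.JoinedMotives

universe u w

section

variable {V : Type u} [Category.{w} V] [CartesianMonoidalCategory V] {C : Chow V} {d : ℕ}

/-- Homological equivalence: an adequate equivalence relation, with the subspaces `Hom X` of the classes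
which are equivalent to zero, which is finer than numerical equivalence. -/
def IsHomological (Hom : ∀ X : V, Submodule ℚ (C.A X)) : Prop :=
  IsAdequate C Hom ∧ ∀ X : V, ∀ a ∈ Hom X, NumTrivial C a

variable (G : Hypersurfaces C d) (Hom : ∀ X : V, Submodule ℚ (C.A X))

/-- (B) for the hypersurface `X : F = 0` of dimension `n`: `CH^i(X) = ℚ h^i` for `2 i < n`. -/
def HypB (F : BForm d) : Prop := ∀ i : ℕ, 2 * i < F.form.dim → G.Triv F.form i

/-- (D) for the hypersurface `X : F = 0` of dimension `n`: `CH^i(X)_hom = 0` for `2 i = n`. -/
def HypD (F : BForm d) : Prop :=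
  ∀ i : ℕ, 2 * i = F.form.dim → ∀ a : C.A (G.X F.form), C.Codim i a → a ∈ Hom (G.X F.form) → a = 0

/-- (B) for the motive `M = h_prim(X_1) ⊗ ... ⊗ h_prim(X_r)`, of weight `n = dim (X_1 × ... × X_r)`:
`CH^i(M) = 0` for `2 i < n`. -/
def TensorB (dim : V → ℕ) (L : List (BForm d)) : Prop :=
  ∀ i : ℕ, 2 * i < dim (prod G L) → ∀ z : C.A (prod G L), C.Codim i z → TotPrim G L z → z = 0

/-- (D) for the motive `M = h_prim(X_1) ⊗ ... ⊗ h_prim(X_r)`, of weight `n = dim (X_1 × ... × X_r)`:
`CH^i(M)_hom = 0` for `2 i = n`. -/
def TensorD (dim : V → ℕ) (L : List (BForm d)) : Prop :=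
  ∀ i : ℕ, 2 * i = dim (prod G L) → ∀ z : C.A (prod G L), C.Codim i z → TotPrim G L z →
    z ∈ Hom (prod G L) → z = 0

end

/-- **Murre's conjectures (B) and (D) for tensor products of primitive motives of hypersurfaces.** -/
theorem result {V : Type u} [Category.{w} V] [CartesianMonoidalCategory V] {C : Chow V}
    {dim : V → ℕ} {d : ℕ} (G : Hypersurfaces C d) (hG : ProductGeometry dim G)
    (Hom : ∀ X : V, Submodule ℚ (C.A X)) (hH : IsHomological Hom) :
    (∀ (F : BForm d) (L : List (BForm d)),
      (HypB G (total F L) → TensorB G dim (F :: L)) ∧
      (HypD G Hom (total F L) → TensorD G Hom dim (F :: L))) ∧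
    ((∀ F : BForm d, HypB G F ∧ HypD G Hom F) ↔
      ∀ L : List (BForm d), L ≠ [] → TensorB G dim L ∧ TensorD G Hom dim L) := by
  have key : ∀ (F : BForm d) (L : List (BForm d)),
      (HypB G (total F L) → TensorB G dim (F :: L)) ∧
      (HypD G Hom (total F L) → TensorD G Hom dim (F :: L)) := by
    intro F L
    have hdim := total_dim_eq hG F L
    constructor
    · intro h i hi z hz hP
      refine vanish_prod hG top_adequate L F i (fun a ha _ hl => ?_) z hz Submodule.mem_top hP
      obtain ⟨q, rfl⟩ := h (i + L.length) (by omega) a ha
      exact hG.smul_zero (by omega) (hl _)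
    · intro h i hi z hz hP hzH
      exact vanish_prod hG hH.1 L F i (fun a ha haH _ => h (i + L.length) (by omega) a ha haH) z hz
        hzH hP
  refine ⟨key, fun h L hL => ?_, fun h F => ?_⟩
  · obtain ⟨F, L, rfl⟩ := List.exists_cons_of_ne_nil hL
    exact ⟨(key F L).1 (h _).1, (key F L).2 (h _).2⟩
  · have h1 := h [F] (by simp)
    have hdim : dim (prod G [F]) = F.form.dim := by
      rw [prod_dim hG, List.map_cons, List.sum_cons, List.map_nil, List.sum_nil, add_zero]
    constructor
    · intro i hi a ha
      obtain ⟨q, hq⟩ := hG.exists_primitive (by omega) a ha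
      have ha' : a - q • G.h F.form ^ i ∈ C.gr (G.X F.form) i :=
        Submodule.sub_mem _ ha (Submodule.smul_mem _ _ (hG.h_pow_mem F.form i))
      have h2 := h1.1 i (by omega) (C.pull (fst (G.X F.form) (𝟙_ V)) (a - q • G.h F.form ^ i))
        (C.pull_mem _ _ _ ha') (totPrim_one hG F _ (hG.push_pow_zero (by omega) ha' hq))
      exact ⟨q, sub_eq_zero.mp (pull_fst_zero h2)⟩
    · intro i hi a ha haH
      have h3 : C.push (toUnit (G.X F.form)) (a * G.h F.form ^ (F.form.dim - i)) = 0 :=
        hH.2 _ a haH _
      have h2 := h1.2 i (by omega) (C.pull (fst (G.X F.form) (𝟙_ V)) a)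
        (C.pull_mem _ _ _ ha) (totPrim_one hG F _ (hG.push_pow_zero (by omega) ha h3))
        (hH.1.pull _ _ haH)
      exact pull_fst_zero h2

end Pool.Agent.Results.MP_38de51_ag.JoinedMotives
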