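import Pool.Agent.V5helper48.WC.Murre2

/-!
# The conjectures of Murre, weight complexes and trilinear forms

`k` is a perfect field, `T` consists of the category of Chow motives with rational coefficients (over
`k`, or over its algebraic closure), of the motives `h X` of the smooth projective varieties `X` over `k`,
and of the weight complexes `W X` of all schemes `X` over `k` (Gillet and Soulé): in characteristic zero,
for `X` smooth with a smooth compactification `Y` and boundary `D_1 ∪ ⋯ ∪ D_s` with normal crossings,
`W X` is the complex `h Y → ⊕ h D_i → ⊕ h (D_i ∩ D_j) → ⋯`. `T.Built S X` says that `W X` lies in the thick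
subcategory generated by the class `S` of motives. `H` is a Weil cohomology theory.

We use the contravariant notation: `CH^r(M) = Hom(L^r, M)`, and a Chow-Künneth decomposition is
`M = ⊕ M_i` with `H^*(M_i) = H^i(M)`. (The functor `h X ↦ h(X)^∨` identifies this category with
the category of covariant motives of the problem; `CH^r` and `H^i` become `CH_(-r)` and `H_(-i)`.)

A *Murre class* is a class `S` of motives, closed under direct sums, direct summands and Tate twists,
whose members have Chow-Künneth decompositions, such that there are no nonzero morphisms `M → N` between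
members with cohomology only in degree `i` and only in degree `j` if `i < j`, and no nonzero homologically
trivial ones if `i = j`.

Theorem.

1. For every class `S` of motives which is closed under sums, summands and Tate twists (and which
contains the motive of the point) and every `n` the following are equivalent: `h X` is in `S` for all
smooth projective `X` of dimension at most `n`; the weight complexes of all schemes of dimension at
most `n` are built from `S`; the weight complexes of the smooth affine cubics `R(x, y, z) = 1` are built
from `S`, for all trilinear forms `R` over `k` with a block of at most `n + 2` variables.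

2. The motives of curves are contained in a Murre class; so the weight complexes of all cubics with a
block of at most three variables are built from a Murre class. (For blocks of four variables this
contains Bloch's conjecture for surfaces without holomorphic two-forms.)

3. The conjectures (A), (B), (C), (D) of Murre for all motives over `k` are equivalent to: there is a Murre
class `S` such that for all trilinear forms `R` the weight complex of the cubic `R(x, y, z) = 1` is
built from `S`; and for a prime field `k` it is enough to take the forms
`R = ∑_{(i, j, l) ∈ G} x_i y_j z_l`, `G` a tripartite hypergraph.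

For `k = ℚ` the category `T.C` may be the category of motives over `ℚ̄` (each of these motives is a
summand of a sum of twists of motives of varieties over `ℚ`): the conjectures of Murre for all motives
over `ℚ̄` are a statement on the weight complexes of the hypergraph cubics over `ℚ̄`.

Proof of the first equivalence in 3. Let (A)-(D) hold for all motives, and let `f : M → N`, `M` and `N`
with cohomology in degree `i` and `j` only. `f` is an element `x` of `CH^0(P)`, `P = M^∨ ⊗ N`, and `P` has
cohomology in degree `j - i` only; so `P = P` is a Chow-Künneth decomposition, and by (C) and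
(B) `x` is in `F^0 CH^0(P) = 0` if `i < j`, and by (C), (B) and (D) in `F^1 CH^0(P) = 0` if `i = j` and
`x` is homologically trivial.
-/

set_option autoImplicit false

open CategoryTheory AlgebraicGeometry
open Pool.Agent.Y116.UV Pool.Agent.Z125.UN Pool.Agent.Q193.LT Pool.Agent.V5helper77.GW
  Pool.Agent.V5helper48.WC

namespace Pool.Agent.Results.MP_38de51_ag.MurreClasses

/-- **The conjectures of Murre and the weight complexes of trilinear cubics.** -/
theorem result {k : Type} [Field k] [PerfectField k] (hA : DeJong k) (T : ChowData k)
    (hT : IsChowTheory IsSmProj T) (ht : HasTransfer T) {F : Type} [Field F]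
    (H : Cohomology T F) (hH : IsWeilTheory H) :
    (∀ S : T.C → Prop, IsTwistStable T S → ∀ n : ℕ,
      ((∀ X : Sch k, IsSmProj X → topologicalKrullDim X.left ≤ n → S (T.h X)) ↔
        ∀ X : Sch k, FT True X → topologicalKrullDim X.left ≤ n → T.Built S X) ∧
      ((∀ X : Sch k, IsSmProj X → topologicalKrullDim X.left ≤ n → S (T.h X)) ↔
        ∀ (a b c : ℕ) (R : Fin a → Fin b → Fin c → k), (a ≤ n + 2 ∨ b ≤ n + 2 ∨ c ≤ n + 2) →
          T.Built S (hypS R))) ∧
    ((∃ S, IsMurreClass H S ∧
        ∀ X : Sch k, IsSmProj X → topologicalKrullDim X.left ≤ 1 → S (T.h X)) →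
      ∃ S, IsMurreClass H S ∧ ∀ (a b c : ℕ) (R : Fin a → Fin b → Fin c → k),
        (a ≤ 3 ∨ b ≤ 3 ∨ c ≤ 3) → T.Built S (hypS R)) ∧
    List.TFAE [∀ M, MurreFor H M,
      ∃ S, IsMurreClass H S ∧ ∀ X : Sch k, FT True X → T.Built S X,
      ∃ S, IsMurreClass H S ∧ ∀ (a b c : ℕ) (R : Fin a → Fin b → Fin c → k),
        T.Built S (hypS R)] ∧
    (Frac k → ((∀ M, MurreFor H M) ↔ ∃ S, IsMurreClass H S ∧
      ∀ (a b c : ℕ) (G : Finset (Fin a × Fin b × Fin c)), T.Built S (tripS k G))) := by
  have h2 : ∀ X : Sch k, IsSmProj X → FT True X := fun X hX => ft_of_smProj hX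
  have h3 : ∀ S : T.C → Prop, IsTwistStable T S →
      ((∀ X : Sch k, IsSmProj X → S (T.h X)) ↔ ∀ X : Sch k, FT True X → T.Built S X) :=
    fun S hS => all_of hT hS (fun _ h => h) h2 (deJong_devissage hT ht hS hA)
  refine ⟨fun S hS n => graded_of hT hS (fun _ h => h) h2 n (deJong_devissage hT ht hS hA n),
    ?_, ?_, ?_⟩
  · rintro ⟨S, hS, h⟩
    exact ⟨S, hS, (graded_of hT hS.stable (fun _ h => h) h2 1
      (deJong_devissage hT ht hS.stable hA 1)).2.mp (by exact_mod_cast h)⟩
  · tfae_have 1 ↔ 2 := by
      rw [murre_iff hH]
      exact ⟨fun ⟨S, hS, h⟩ => ⟨S, hS, (h3 S hS.stable).mp h⟩,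
        fun ⟨S, hS, h⟩ => ⟨S, hS, (h3 S hS.stable).mpr h⟩⟩
    tfae_have 2 → 3 := fun ⟨S, hS, h⟩ => ⟨S, hS, (all_iff (bnd_built hT hS.stable)).mp h⟩
    tfae_have 3 → 2 := fun ⟨S, hS, h⟩ => ⟨S, hS, (all_iff (bnd_built hT hS.stable)).mpr h⟩
    tfae_finish
  · intro hk
    rw [murre_iff hH]
    exact ⟨fun ⟨S, hS, h⟩ => ⟨S, hS, (graphs_of hk hT hS.stable (fun _ h => h) h2
        (deJong_devissage hT ht hS.stable hA)).mp h⟩,
      fun ⟨S, hS, h⟩ => ⟨S, hS, (graphs_of hk hT hS.stable (fun _ h => h) h2
        (deJong_devissage hT ht hS.stable hA)).mpr h⟩⟩

end Pool.Agent.Results.MP_38de51_ag.MurreClasses
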