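import Pool.Agent.V5helper93.Murre.Main

/-!
# Tame families of motives and the conjectures of Murre

`𝒱` is a class of smooth projective geometrically irreducible varieties over the field `k` which is
closed under products (for example all of them), `C` the Chow groups with rational coefficients (in
the form of their formal properties, `IsChowProj`) and `H` a Weil cohomology theory (`IsWeilProj`).
Motives are triples `M = (X, p, n)`, with `CH_l(M) = p_* CH_(l - n)(X)` and
`H_i(M) = p_* H_(i - 2 n)(X)`; a Chow-Kunneth decomposition is a finite decomposition `M = ⊕ M_i`,
`i ∈ ℤ`, with `H_*(M_i) = H_i(M)` (`IsMotiveCK`). The conjectures of Murre for one decomposition are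
(B): `CH_l(M_i) = 0` for `i < 2 l`, and (D): `CH_l(M_(2 l))_hom = 0`; the conjecture (C) for `M` says
that the filtration `F^ν CH_l(M) = ⊕_(i ≥ 2 l + ν) CH_l(M_i)` is the same for all Chow-Kunneth
decompositions of `M`.

A family `𝒩` of motives with Chow-Kunneth decompositions is tame if (B) and (D) hold for its members
and there are no nonzero morphisms `M_a → N_b` with `b < a` between pieces of members (`IsTame`).

1. (`(A)`, `(B)`, `(D)` for sums and summands.) Every tame family is contained in a tame family which
   contains, for every direct summand of every finite direct sum of members, a Chow-Kunneth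
   decomposition; in particular (A), (B), (D) hold for all these motives. No finite-dimensionality is
   assumed: it is not assumed that the Kunneth components of a summand can be lifted from the
   cohomology to the Chow groups.
2. (`(C)`.) For every member `M` of a tame family the following are equivalent: (C) for `M`; (C) for
   the step `F^0` only; (B) for all Chow-Kunneth decompositions of `M`; (D) for all Chow-Kunneth
   decompositions of `M`; the Chow groups of all phantom summands of `M` are zero; the same for the
   phantom summands of the pieces `M_i` of the given decomposition.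
3. (Surfaces.) Over any field the Tate twists of the motives of all surfaces, with decompositions of
   Murre's kind, are a tame family. So 1 and 2 can be applied to all motives of surface type. If the
   motive of a variety `X` is of surface type then (C) in its usual form, for decompositions indexed
   by `0, ..., 2 dim X`, is equivalent to (C) for the motive `(X, Δ, 0)`, and to the triviality of the
   Chow groups of the phantoms in `h(X)`.

The known facts on divisors and on surfaces which are used in 3 are recorded in `SurfaceProperties`.
-/

set_option autoImplicit false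

universe u v w

namespace Pool.Agent.Results.MP_38de51_ag.TameFamilies

open Pool.Agent.H914 Pool.Agent.W492.BB Pool.Agent.W550.Corr Pool.Agent.TH133 Pool.Agent.X308.S
  Pool.Agent.V5helper93.Murre

/-- Tame families are closed under sums and summands; the conjecture (C) for their members; motives
of surface type. -/
theorem result {k : Type u} [Field k] {𝒱 : VarClass k} (C : TheoryData.{u, v, 0} 𝒱 ℚ)
    [IsChowProj C] {K : Type w} [Field K] (H : WeilTheoryData.{u, v, w} C K) [IsWeilProj H] :
    (∀ 𝒩 : Set (MotCK C), IsTame H 𝒩 →
      (∃ 𝒩' : Set (MotCK C), 𝒩 ⊆ 𝒩' ∧ IsTame H 𝒩' ∧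
        ∀ (X : 𝒱.Obj) (p : C.A (X.prod X)) (n : ℤ), C.comp p p = p → p ∈ through 𝒩 X n →
          ∃ π, (⟨X, p, n, π⟩ : MotCK C) ∈ 𝒩') ∧
      ∀ M ∈ 𝒩, List.TFAE [∀ ν, StepC H M.p M.n ν, StepC H M.p M.n 0,
        ∀ π, IsMotiveCK H M.p M.n π → MotiveB C M.n π,
        ∀ π, IsMotiveCK H M.p M.n π → MotiveD H M.n π,
        NoPhantomCycles H M.p, ∀ i, NoPhantomCycles H (M.π i)]) ∧
    (SurfaceProperties H → IsTame H (surfaces H) ∧
      ∀ X : 𝒱.Obj, dg C X ∈ through (surfaces H) X 0 →
        List.TFAE [VarietyC H X, ∀ ν, StepC H (dg C X) 0 ν, NoPhantomCycles H (dg C X)]) :=
  ⟨fun _ h => ⟨generate h, fun _ hM => tfae_tame h hM⟩,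
    fun hS => ⟨surfaces_tame hS, varieties hS⟩⟩

end Pool.Agent.Results.MP_38de51_ag.TameFamilies
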